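import Pool.Agent.X12.Lng3
import Pool.Agent.X12.Szp18
import Pool.Agent.TH951.LS.Reg

/-!
# Lang and Silverman's lower bound for almost all elliptic curves over `ℚ`, ordered by the Faltings
height, with an explicit constant

We consider all elliptic curves `E` over `ℚ`, with arbitrary reduction, and all abelian varieties `E ^ g`
with all polarizations.  There are `B ^ (10 + o(1))` curves with relative Faltings height
`h_F(E) ≤ log B`.  For every `c < 1 / 2`, all but `O(B ^ (38 / 5 + 24 c / 5 + ε))` of them, and for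
`c ≤ 1 / 12` all but `O(B ^ (8 + ε))` of them, satisfy
`ĥ(P) ≥ c max (h_F(E), 1)` for all points `P ≠ 0` of `E ^ g` over `ℚ`, all `g` and all polarizations
(in particular they have no torsion over `ℚ`), and the corresponding lower bound for the regulators.

Proof: the canonical height of `P` is at least `(1 / 12) log S - (1 / 24) h(j) - C`, where `S` is the
product of the primes `p ≥ 5` which divide the discriminant `D` exactly once (the local heights of the
library files `Y733/LS`), and `S |D| ≥ M²`, where `M` is the product of all primes `p ≥ 5` of bad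
reduction.  The curves with `M ≤ Z` near the top of a box are counted as in the files `X12/Szp22`:
one writes `b = b₁ b₂`, where `b₁` is composed of primes of `6 a` and `b₂` is prime to `6 a`, and uses
that the part of the discriminant prime to `6 a` is divisible by `d rad d` for some `d` which is not
small or by the square of a large prime.
-/

set_option autoImplicit false

namespace Pool.Agent.Results.MP_9a3c31_nt.AlmostAllCurvesByHeight

open Filter Topology

/-- the discriminant of `x³ - a x - b` -/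
def Disc (a b : ℤ) : ℤ := 4 * a ^ 3 - 27 * b ^ 2

/-- `y² = x³ - a x - b` is an elliptic curve and `|Disc|` is least among the integral models
`y² = x³ - a' x - b'`, `a' = u⁴ a`, `b' = u⁶ b`, `u ∈ ℚ^×`. Every elliptic curve over `ℚ` has exactly
one such model. -/
def IsMinimal (a b : ℤ) : Prop :=
  Disc a b ≠ 0 ∧ ∀ (u : ℚ) (a' b' : ℤ), u ≠ 0 → (a' : ℚ) = u ^ 4 * a → (b' : ℚ) = u ^ 6 * b →
    |Disc a b| ≤ |Disc a' b'|

/-- the curve `y² = x³ - a x - b` over `ℚ`, `q = (a, b)` -/
def E (q : ℤ × ℤ) : WeierstrassCurve ℚ := ⟨0, 0, 0, -(q.1 : ℚ), -(q.2 : ℚ)⟩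

/-- the absolute value of the minimal discriminant of an elliptic curve `W` over `ℚ`: the smallest
absolute value of the discriminant of a Weierstrass equation `V` with integer coefficients which is
isomorphic to `W` over `ℚ` -/
noncomputable def minDisc (W : WeierstrassCurve ℚ) : ℕ :=
  sInf {n : ℕ | ∃ (V : WeierstrassCurve ℤ) (C : WeierstrassCurve.VariableChange ℚ),
    C • W = V.map (Int.castRingHom ℚ) ∧ n = V.Δ.natAbs}

/-- the modular invariant `j(τ) = E₄(τ) ^ 3 / Δ(τ) = 1 / q + 744 + ⋯` -/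
noncomputable def jInv (τ : UpperHalfPlane) : ℂ :=
  ModularForm.E₄ τ ^ 3 / ModularForm.discriminant τ

/-- the archimedean term `- log (|Δ(τ)| (Im τ) ^ 6)` of the Faltings height -/
noncomputable def arch (τ : UpperHalfPlane) : ℝ :=
  -Real.log (‖ModularForm.discriminant τ‖ * τ.im ^ 6)

/-- `E(ℂ)` is isomorphic to `ℂ / (ℤ + ℤ τ)`: `j(τ) = c₄³ / Δ` is the invariant of `E` -/
def IsPeriod (q : ℤ × ℤ) (τ : UpperHalfPlane) : Prop :=
  jInv τ = (((E q).c₄ ^ 3 / (E q).Δ : ℚ) : ℂ)

/-- The relative Faltings height over `ℚ` (up to an additive constant which depends on the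
normalisation only): `12 h_F(E)` is the logarithm of the minimal discriminant plus the archimedean term
at a period `τ` of the curve. -/
noncomputable def height (q : ℤ × ℤ) (τ : UpperHalfPlane) : ℝ :=
  (Real.log (minDisc (E q) : ℝ) + arch τ) / 12

/-- `h` is the canonical height of the point `P`, normalised by `h = lim 4 ^ (-n) h(x(2 ^ n P))`; here
`xRep` is `(x : 1)`, and `(1 : 0)` for the point at infinity. -/
def IsCanonicalHeight {W : WeierstrassCurve ℚ} (P : W.toAffine.Point) (h : ℝ) : Prop :=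
  Tendsto (fun n : ℕ => Height.logHeight ((2 ^ n • P).xRep) / 4 ^ n) atTop (𝓝 h)

/-- the bilinear form `⟨·, ·⟩` with `⟨x, x⟩ = ĥ x` -/
noncomputable def pairing {A : Type} [AddCommGroup A] (ĥ : A → ℝ) (x y : A) : ℝ :=
  (ĥ (x + y) - ĥ x - ĥ y) / 2

/-- the canonical height `∑ L i j ⟨P i, P j⟩` of the point `P ∈ A ^ g` for the polarization `L` -/
noncomputable def polHeight {A : Type} [AddCommGroup A] (ĥ : A → ℝ) {g : ℕ}
    (L : Matrix (Fin g) (Fin g) ℤ) (P : Fin g → A) : ℝ :=
  ∑ i, ∑ j, (L i j : ℝ) * pairing ĥ (P i) (P j)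

/-- The bound of Lang and Silverman, with the right hand side `μ`, for all powers of `W`: the
canonical height exists, it is at least `μ` for every point `P ≠ 0` of `W ^ g` over `ℚ` and every
polarization, given by a positive definite integral matrix `L`; and if no non-trivial integral
combination of the `P i ∈ W(ℚ)` is a torsion point, then the determinant of the height pairings
`⟨P i, P j⟩` is at least `(μ / g) ^ g` and the height of `P` is at least `μ (det L) ^ (1 / g)`. -/
def LangSilverman (μ : ℝ) (W : WeierstrassCurve ℚ) : Prop :=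
  ∃ ĥ : W.toAffine.Point → ℝ, (∀ P, IsCanonicalHeight P (ĥ P)) ∧
    (∀ (g : ℕ) (P : Fin g → W.toAffine.Point), P ≠ 0 → ∀ L : Matrix (Fin g) (Fin g) ℤ,
      (L.map (Int.cast : ℤ → ℝ)).PosDef → μ ≤ polHeight ĥ L P) ∧
    ∀ (g : ℕ) (P : Fin g → W.toAffine.Point),
      (∀ n : Fin g → ℤ, n ≠ 0 → ¬ IsOfFinAddOrder (∑ i, n i • P i)) →
      (μ / g) ^ g ≤ (Matrix.of fun i j => pairing ĥ (P i) (P j)).det ∧
      ∀ L : Matrix (Fin g) (Fin g) ℤ, (L.map (Int.cast : ℤ → ℝ)).PosDef →
        μ ^ g * (L.det : ℝ) ≤ polHeight ĥ L P ^ g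

/-- all elliptic curves over `ℚ` (minimal models) with `h_F ≤ log B` -/
def Curves (B : ℝ) : Set (ℤ × ℤ) :=
  {q | ∃ τ, IsMinimal q.1 q.2 ∧ IsPeriod q τ ∧ height q τ ≤ Real.log B}

/-- those for which the bound of Lang and Silverman with constant `c` fails -/
def Exceptional (c B : ℝ) : Set (ℤ × ℤ) :=
  {q | ∃ τ, IsMinimal q.1 q.2 ∧ IsPeriod q τ ∧ height q τ ≤ Real.log B ∧
    ¬ LangSilverman (c * max (height q τ) 1) (E q)}

theorem ls_of_low {q : ℤ × ℤ} {μ : ℝ} (hμ : 0 < μ) (hD : Pool.Agent.X12.Szp.Dsc q.1 q.2 ≠ 0)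
    (h : Pool.Agent.X12.Lng.Low μ q) : LangSilverman μ (E q) := by
  have hDq : 4 * (-(q.1 : ℚ)) ^ 3 + 27 * (-(q.2 : ℚ)) ^ 2 ≠ 0 := by
    rw [Pool.Agent.X12.Lng.dl_neg]
    exact_mod_cast neg_ne_zero.2 hD
  obtain ⟨hlim, hq0, hqp, -⟩ := Pool.Agent.TH910.LS.chat_spec hDq
  refine ⟨fun Q => Pool.Agent.TH910.LS.chat (a := -(q.1 : ℚ)) (b := -(q.2 : ℚ)) Q, hlim, ?_, ?_⟩
  · intro g P hP L hL
    exact Pool.Agent.Y733.LS.all_powers hDq hμ h L hL hP
  · intro g P hP
    have key : ∀ n : Fin g → ℤ, n ≠ 0 → μ ≤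
        Pool.Agent.TH910.LS.chat (a := -(q.1 : ℚ)) (b := -(q.2 : ℚ)) (∑ i, n i • P i) := by
      intro n hn
      refine h _ fun h0 => hP n hn ?_
      have h1 : (∑ i, n i • P i : (E q).toAffine.Point) = 0 := h0
      rw [h1]
      exact IsOfFinAddOrder.zero
    rcases Nat.eq_zero_or_pos g with rfl | hg
    · simp
    have : Nonempty (Fin g) := ⟨⟨0, hg⟩⟩
    have hgR : (0 : ℝ) < g := by exact_mod_cast hg
    constructor
    · have h1 := TH951.LS.gram_det (fun Q : (E q).toAffine.Point =>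
        Pool.Agent.TH910.LS.chat (a := -(q.1 : ℚ)) (b := -(q.2 : ℚ)) Q) hq0 hqp P hμ key
      rw [Fintype.card_fin] at h1
      rw [div_pow, div_le_iff₀ (by positivity)]
      exact h1.trans (le_of_eq (mul_comm _ _))
    · intro L hL
      have h1 := Pool.Agent.TH910.LS.indep_bound (fun Q : (E q).toAffine.Point =>
        Pool.Agent.TH910.LS.chat (a := -(q.1 : ℚ)) (b := -(q.2 : ℚ)) Q) hq0 hqp P L hL hμ key
      rw [Fintype.card_fin] at h1
      exact h1

/-- **Theorem.**  Every curve has a period, the sets are finite for `B ≥ 1`, and there are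
`B ^ (10 + o(1))` elliptic curves over `ℚ` with `h_F ≤ log B`.  For every `c > 0` and `ε > 0`, at most
`C B ^ (max (38 / 5 + 24 c / 5, 8) + ε)` of them do not satisfy the bound of Lang and Silverman
`ĥ(P) ≥ c max (h_F, 1)`. -/
theorem result :
    (∀ q : ℤ × ℤ, ∃ τ, IsPeriod q τ) ∧
    (∀ B : ℝ, 1 ≤ B → (Curves B).Finite) ∧
    Tendsto (fun B : ℝ => Real.log ((Curves B).ncard : ℝ) / Real.log B) atTop (𝓝 10) ∧
    ∀ c ε : ℝ, 0 < c → 0 < ε → ∃ C : ℝ, 0 < C ∧ ∀ B : ℝ, 1 ≤ B →
      ((Exceptional c B).ncard : ℝ) ≤ C * B ^ (max (38 / 5 + 24 / 5 * c) 8 + ε) := by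
  have hfin : ∀ B : ℝ, 1 ≤ B → (Curves B).Finite := fun B hB => Pool.Agent.X12.Szp.AH_finite hB
  refine ⟨Pool.Agent.X12.Szp.ex_Pr, hfin, ?_, fun c ε hc hε => ?_⟩
  · refine Pool.Agent.X12.Szp.tendsto_of_bounds _ _ (fun ε hε => ?_)
      fun ε hε => Pool.Agent.X12.Szp.AH_card ε hε
    obtain ⟨B1, h⟩ := Pool.Agent.X12.Szp.WH_lower (1 / 12) 0 ε le_rfl (by norm_num) hε
    refine ⟨max B1 1, fun B hB => ?_⟩
    have h1 := h B ((le_max_left _ _).trans hB)
    have e1 : (1 : ℝ) / (1 / 12) - 2 - ε = 10 - ε := by norm_num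
    rw [e1] at h1
    refine h1.trans ?_
    exact_mod_cast Set.ncard_le_ncard (fun q hq => (Pool.Agent.X12.Szp.WW'_sub _ _ _ hq).1)
      (hfin B ((le_max_right _ _).trans hB))
  · obtain ⟨C, hC, h⟩ := Pool.Agent.X12.Lng.EH_upper c ε hc hε
    refine ⟨C, hC, fun B hB => le_trans ?_ (h B hB)⟩
    have hsub : Exceptional c B ⊆ Pool.Agent.X12.Lng.EH c B := by
      rintro q ⟨τ, h0, h1, h2, h3⟩
      refine ⟨τ, h0, h1, h2, fun hlow => h3 ?_⟩
      exact ls_of_low (mul_pos hc (lt_max_of_lt_right one_pos)) h0.1 hlow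
    exact_mod_cast Set.ncard_le_ncard hsub (Pool.Agent.X12.Lng.EH_finite c hB)

end Pool.Agent.Results.MP_9a3c31_nt.AlmostAllCurvesByHeight
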