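import Mathlib
import Pool.Agent.X295.LsB
import Pool.Agent.X295.LsC
import Pool.Agent.Results.MP_9a3c31_nt.FormsSzpiroRatio

/-!
# MP_9a3c31_nt: the Lang-Silverman lower bound for almost all members of all families of elliptic curves
# with any number of parameters

Let `K₀` be a number field of degree `d` and `j = F/G` a rational function over `K₀` in `m` variables.

(1) If `j` is not a polynomial, then for all but `O(H^(d m - 1 + δ))` of the `≍ H^(d m)` vectors `x` of integers of
`K₀` with coordinates at most `H`, the lower bound holds, with ONE constant `c`, for all forms over `K` (in particular all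
twists) of the powers of all elliptic curves with the invariant `j(x)` over all extensions `K` of `K₀` with
`[K : ℚ] ≤ D`.

(2) If `j` is not constant, the same holds for all but `O(H^(d (m + 1) - 1 + δ))` of the vectors
`t = (x_1 / x_0, …, x_m / x_0)`, where the `x_i` are integers of `K₀` with coordinates at most `H`.

Proof. Let `g` be an irreducible factor of the denominator of `j`.  For most `x`, the value `g(x)` is, up to the
divisors of a number `T ≤ H^ε`, not a perfect `N`-th power, uniformly in `T` (`Pool.Agent.X295.GalA` to `GalK`).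
Taking for `T` the product of the primes below the poles of `j(x)`, one sees that this product is at least `H^ε`.
The height of `j(x)` is at most `C (1 + log H)`; so it is bounded by `σ` times the sum of `log p` over the primes
below the poles.  This is the truncated Szpiro-type bound in the starting theorem `FormsSzpiroRatio`.

The curve is `y² = x³ + a x + b`, `a`, `b` integers of `K` with `h(a) + h(b) ≤ κ (1 + h(j))`.  A finite Galois
extension `L` of `K` and a representation `ρ` of its group by integral matrices of size `g` define an abelian variety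
`A` over `K`, the form of `E ^ g` with `A(K) = {P ∈ E(L) ^ g | ρ(σ) σ(P) = P for all σ}` (`FixedPt ρ P`).
A symmetric positive definite integral matrix `M` with `ρ(σ)ᵀ M ρ(σ) = M` (`Polar ρ M`) is a polarization of `A` over
`K`; the corresponding absolute canonical height is `chatM M P / [L : ℚ]`.
-/

set_option autoImplicit false

open Pool.Agent.TH910.LS Pool.Agent.Y725.LS NumberField IsDedekindDomain

namespace Pool.Agent.Results.MP_9a3c31_nt.FamiliesSeveralParameters

/-- The lower bound, with constant `c`, for all forms of dimension `g` of the powers of the elliptic curves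
`y² = x³ + a x + b` with the invariant `j`, over all extensions of `K₀` of degree at most `D` over `ℚ`. -/
def AllForms (c : ℝ) (D g : ℕ) (κ : ℝ) {K₀ : Type} [Field K₀] [NumberField K₀] (j : K₀) : Prop :=
  ∀ (K : Type) [Field K] [NumberField K] [Algebra K₀ K], Module.finrank ℚ K ≤ D →
  ∀ a b : 𝓞 K, 4 * (a : K) ^ 3 + 27 * (b : K) ^ 2 ≠ 0 → jinv (a : K) b = algebraMap K₀ K j →
    absH (a : K) + absH (b : K) ≤ κ * (1 + absH (jinv (a : K) b)) →
  ∀ (L : Type) [Field L] [NumberField L] [Algebra K L] [IsGalois K L] [DecidableEq L],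
    ChatLim L a b ∧
    ∀ (ρ : (L ≃ₐ[K] L) →* Matrix (Fin g) (Fin g) ℤ) (M : Matrix (Fin g) (Fin g) ℤ)
      (P : Fin g → Pts L a b) (T : Finset (HeightOneSpectrum (𝓞 L))),
      Polar ρ M → FixedPt ρ P → RamPrimes K T →
      (Generates P ∧ ¬ IsOfFinAddOrder P) ∨ (Faithful ρ ∧ DenseOrbit ρ P) →
        c * (1 + absH (jinv (a : K) b) + logNorms T / Module.finrank ℚ L) ≤
          chatM M P / Module.finrank ℚ L

section
variable {K₀ : Type} [Field K₀] [NumberField K₀] {ι : Type} [Fintype ι] {m : ℕ}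

/-- All coordinates of all `x_i` in the basis `ω` are at most `H`. -/
def InBox (ω : Module.Basis ι ℤ (𝓞 K₀)) {n : ℕ} (H : ℕ) (x : Fin n → 𝓞 K₀) : Prop :=
  ∀ i k, |ω.repr (x i) k| ≤ H

/-- The vectors of integers `x` of `K₀` in the box, `G(x) ≠ 0`, for which the bound does not hold for
the invariant `F(x) / G(x)`. -/
def IntegralExceptions (ω : Module.Basis ι ℤ (𝓞 K₀)) (F G : MvPolynomial (Fin m) K₀) (c : ℝ)
    (D g : ℕ) (κ : ℝ) (H : ℕ) : Set (Fin m → 𝓞 K₀) :=
  {x | InBox ω H x ∧ MvPolynomial.eval (fun i => (x i : K₀)) G ≠ 0 ∧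
    ¬ AllForms c D g κ (MvPolynomial.eval (fun i => (x i : K₀)) F /
      MvPolynomial.eval (fun i => (x i : K₀)) G)}

/-- The vectors `t = (x_1 / x_0, …, x_m / x_0)`, where the `x_i` are integers of `K₀` in the box and
`G(t) ≠ 0`, for which the bound does not hold for the invariant `F(t) / G(t)`. -/
def FieldExceptions (ω : Module.Basis ι ℤ (𝓞 K₀)) (F G : MvPolynomial (Fin m) K₀) (c : ℝ)
    (D g : ℕ) (κ : ℝ) (H : ℕ) : Set (Fin m → K₀) :=
  {t | (∃ x : Fin (m + 1) → 𝓞 K₀, x 0 ≠ 0 ∧ InBox ω H x ∧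
      ∀ i, t i = (x i.succ : K₀) / (x 0 : K₀)) ∧ MvPolynomial.eval t G ≠ 0 ∧
    ¬ AllForms c D g κ (MvPolynomial.eval t F / MvPolynomial.eval t G)}

theorem allForms {D g : ℕ} (hg : 0 < g) {κ : ℝ} (hκ : 0 ≤ κ) {σ : ℝ} (hσ : 0 ≤ σ) :
    ∃ c : ℝ, 0 < c ∧ ∀ j : K₀, Pool.Agent.X295.Gal.ManyPoles σ j → AllForms c D g κ j := by
  obtain ⟨c, δ, hc, hδ, h⟩ :=
    Pool.Agent.Results.MP_9a3c31_nt.FormsSzpiroRatio.result D g 0 hg κ (D * σ) hκ
  obtain ⟨A, c₀, hc₀, h⟩ := h 1 one_ne_zero
  refine ⟨min c c₀, lt_min hc hc₀, fun j hj K _ _ _ hK a b hab hjab hh L _ _ _ _ _ => ?_⟩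
  have hSz := Pool.Agent.X295.Gal.szp hσ hj D K hK hab hjab L hδ.le
  obtain ⟨h1, h2⟩ := h K hK a b hab hh L hSz
  refine ⟨h1, fun ρ M P T hM hP hT hor => ?_⟩
  refine le_trans ?_ (h2 ρ M P T hM hP hT hor)
  have hpos : 0 ≤ 1 + absH (jinv (a : K) b) + logNorms T / Module.finrank ℚ L := by
    have h2 : 0 ≤ absH (jinv (a : K) b) :=
      div_nonneg (Height.zero_le_logHeight₁ _) (Nat.cast_nonneg _)
    have h3 : 0 ≤ logNorms T / Module.finrank ℚ L :=
      div_nonneg (Finset.sum_nonneg fun _ _ => Real.log_natCast_nonneg _) (Nat.cast_nonneg _)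
    linarith
  refine mul_le_mul_of_nonneg_right ?_ hpos
  split_ifs
  · exact min_le_left _ _
  · exact min_le_right _ _

end

/-- **The lower bound for almost all members of a family.** -/
theorem result (K₀ : Type) [Field K₀] [NumberField K₀] {ι : Type} [Fintype ι]
    (ω : Module.Basis ι ℤ (𝓞 K₀)) (m : ℕ) (F G : MvPolynomial (Fin m) K₀) (hG : G ≠ 0)
    (D g : ℕ) (hg : 0 < g) (κ : ℝ) (hκ : 0 ≤ κ) (δ : ℝ) (hδ : 0 < δ) :
    (¬ G ∣ F → ∃ c C : ℝ, 0 < c ∧ ∀ H : ℕ, 1 ≤ H →
      (IntegralExceptions ω F G c D g κ H).Finite ∧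
      ((IntegralExceptions ω F G c D g κ H).ncard : ℝ) ≤
        C * (H : ℝ) ^ ((m : ℝ) * Module.finrank ℚ K₀ - 1 + δ)) ∧
    ((∀ a : K₀, F ≠ MvPolynomial.C a * G) → ∃ c C : ℝ, 0 < c ∧ ∀ H : ℕ, 1 ≤ H →
      (FieldExceptions ω F G c D g κ H).Finite ∧
      ((FieldExceptions ω F G c D g κ H).ncard : ℝ) ≤
        C * (H : ℝ) ^ (((m : ℝ) + 1) * Module.finrank ℚ K₀ - 1 + δ)) := by
  constructor
  · intro hFG
    obtain ⟨σ, C, hσ, -, hC⟩ := Pool.Agent.X295.Gal.many_poles_OK ω F G hG hFG hδ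
    obtain ⟨c, hc, h⟩ := allForms (K₀ := K₀) (D := D) hg hκ hσ
    refine ⟨c, C, hc, fun H hH => hC H hH _ ?_⟩
    rintro x ⟨h1, h2, h3⟩
    exact ⟨h1, h2, fun h4 => h3 (h _ h4)⟩
  · intro hFG
    obtain ⟨σ, C, hσ, -, hC⟩ := Pool.Agent.X295.Gal.many_poles_K ω F G hG hFG hδ
    obtain ⟨c, hc, h⟩ := allForms (K₀ := K₀) (D := D) hg hκ hσ
    refine ⟨c, C, hc, fun H hH => hC H hH _ ?_⟩
    rintro t ⟨h1, h2, h3⟩
    exact ⟨h1, h2, fun h4 => h3 (h _ h4)⟩

end Pool.Agent.Results.MP_9a3c31_nt.FamiliesSeveralParameters
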