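import Pool.Agent.X39.Win.Basic
import Pool.Agent.Results.MP_9a3c31_nt.AlmostAllInvariants

/-!
# Lang and Silverman's lower bound for ALL elliptic curves with an invariant in a short window

The invariants `j ≠ 0, 1728` in a number field `K`, of whatever height, are ordered by
`N(j) = exp (jcnt j)`, the product of the norms of the primes of `K` at which `j` reduces to `0`, `1728`
or `∞`. Let `v ≥ 1` be a sequence with exponent of convergence at most `τ` (for `v_n = n ^ k` this is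
`1 / k`, for `v_n = b ^ n` it is `0`). There is `ν > 0`, depending only on `K`, such that for all `α > 0`
outside a set of Hausdorff dimension at most `(2 / 3 - ν + τ) / (1 - θ)`, for all large `n`, all forms of
the powers of ALL elliptic curves over `K` whose invariant `j` is in the window
`|N(j) - α v_n| ≤ v_n ^ θ` satisfy the lower bound, with one constant `c` depending only on the bound for
the degree, the dimension and `κ`. There are `X ^ (2 / 3 + o(1))` invariants with `N(j) ≤ X`.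
-/

set_option autoImplicit false

open MeasureTheory

namespace Pool.Agent.Results.MP_9a3c31_nt.InvariantsInWindows

open Pool.Agent.TH910.LS Pool.Agent.Y725.LS NumberField IsDedekindDomain AlmostAllInvariants

/-- the exponent of convergence of the sequence `v` is at most `τ` -/
def ExpLe (v : ℕ → ℝ) (τ : ℝ) : Prop := ∀ t : ℝ, τ < t → Summable (fun n : ℕ => (v n) ^ (-t))

/-- the invariant `j` is in the window `|exp (jcnt j) - y| ≤ r` -/
def InWindow {K : Type} [Field K] [NumberField K] (y r : ℝ) (j : K) : Prop :=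
  j ≠ 0 ∧ j ≠ 1728 ∧ |Real.exp (jcnt j) - y| ≤ r

/-- for all large `n`, all elliptic curves over `K` with an invariant in the window around `α v_n` and
with coefficients of height at most `κ` times the height of the invariant satisfy the bound, with the
constant `c`, and so do all forms of dimension `g` of their powers, over all Galois extensions -/
def AllInWindows (K : Type) [Field K] [NumberField K] (c : ℝ) (g : ℕ) (κ : ℝ) (v : ℕ → ℝ)
    (θ α : ℝ) : Prop :=
  ∃ n₀ : ℕ, ∀ n : ℕ, n₀ ≤ n → ∀ a b : 𝓞 K, 4 * (a : K) ^ 3 + 27 * (b : K) ^ 2 ≠ 0 →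
    absH (a : K) + absH (b : K) ≤ κ * (1 + absH (jinv (a : K) b)) →
    InWindow (α * v n) (v n ^ θ) (jinv (a : K) b) →
    ∀ (L : Type) [Field L] [NumberField L] [Algebra K L] [IsGalois K L] [DecidableEq L],
      ChatLim L a b ∧ LangSilverman c g a b L

theorem window_main (K : Type) [Field K] [NumberField K] : ∃ ν : ℝ, 0 < ν ∧ ν ≤ 2 / 3 ∧
    ∀ (v : ℕ → ℝ) (τ θ : ℝ), (∀ n, 1 ≤ v n) → 0 ≤ τ → ExpLe v τ → θ < 1 →
      ∃ E : Set ℝ, dimH E ≤ ENNReal.ofReal ((2 / 3 - ν + τ) / (1 - θ)) ∧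
        ∀ α : ℝ, 0 < α → α ∉ E → ∃ n₀ : ℕ, ∀ n : ℕ, n₀ ≤ n → ∀ j : K,
          InWindow (α * v n) (v n ^ θ) j → j ∉ Exceptional K := by
  obtain ⟨ν, C, hν, hC, hcount⟩ := AlmostAllInvariants.result.2.1 K
  refine ⟨min ν (2 / 3), lt_min hν (by norm_num), min_le_right _ _, ?_⟩
  intro v τ θ hv hτ hE hθ
  obtain ⟨E, hE1, hE2⟩ := Pool.Agent.Y854.GM.windows (Exceptional K) (fun j => Real.exp (jcnt j))
    (v := v) (s := 2 / 3 - min ν (2 / 3)) (τ := τ) (θ := θ) hv hτ hE
    (by have := min_le_right ν (2 / 3); linarith) hθ (by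
      intro ε hε
      refine ⟨C, fun X hX => ?_⟩
      have hset : {t : K | t ∈ Exceptional K ∧ Real.exp (jcnt t) ≤ X} = Exceptional K ∩ Inv K X := by
        ext t
        constructor
        · rintro ⟨h1, h2⟩
          exact ⟨h1, h1.1, h1.2.1, (Real.le_log_iff_exp_le (by linarith)).2 h2⟩
        · rintro ⟨h1, -, -, h2⟩
          exact ⟨h1, (Real.le_log_iff_exp_le (by linarith)).1 h2⟩
      rw [hset]
      obtain ⟨C₁, h3⟩ := (AlmostAllInvariants.result.1 K 1 one_pos).1
      refine ⟨(h3 X hX).1.subset Set.inter_subset_right, (hcount X hX).trans ?_⟩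
      refine mul_le_mul_of_nonneg_left (Real.rpow_le_rpow_of_exponent_le hX ?_) hC.le
      have := min_le_left ν (2 / 3)
      linarith)
  refine ⟨E, hE1, fun α hα hαE => ?_⟩
  obtain ⟨n₀, hn⟩ := hE2 α hα hαE
  refine ⟨n₀, fun n hn1 j hj hex => ?_⟩
  exact absurd hj.2.2 (not_le.2 (hn n hn1 j hex))

/-- **Theorem.** (1) For each bound `D` for the degree, each `g > 0` and `κ` there is one constant
`c > 0` such that for each number field `K` of degree at most `D` there is `ν > 0` such that, for each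
sequence `v ≥ 1` with exponent of convergence at most `τ` and each `θ < 1`, for all `α > 0` outside a set
of Hausdorff dimension at most `(2 / 3 - ν + τ) / (1 - θ)`, for all large `n`, all curves over `K` with
invariant in the window `|exp (jcnt j) - α v_n| ≤ v_n ^ θ` and all forms of their powers satisfy the
lower bound with the constant `c`. (2) If `τ + θ < 1 / 3 + ν` these are almost all `α`. (3) The number of
invariants in `K` with `exp (jcnt j) ≤ X` is `X ^ (2 / 3 + o(1))`. (4) Every `j ≠ 0, 1728` is the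
invariant of a curve as in (1), with a `κ` depending only on `D`. (5) The sequences
`v_n = (n + 1) ^ k` and `v_n = b ^ n` have exponent of convergence at most `1 / k` and `0`. -/
theorem result :
    (∀ (D g : ℕ) (κ : ℝ), 0 < g → 0 ≤ κ → ∃ c : ℝ, 0 < c ∧
      ∀ (K : Type) [Field K] [NumberField K], Module.finrank ℚ K ≤ D →
      ∃ ν : ℝ, 0 < ν ∧ ν ≤ 2 / 3 ∧ ∀ (v : ℕ → ℝ) (τ θ : ℝ), (∀ n, 1 ≤ v n) → 0 ≤ τ → ExpLe v τ →
        θ < 1 →
        (∃ E : Set ℝ, dimH E ≤ ENNReal.ofReal ((2 / 3 - ν + τ) / (1 - θ)) ∧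
          ∀ α : ℝ, 0 < α → α ∉ E → AllInWindows K c g κ v θ α) ∧
        (τ + θ < 1 / 3 + ν → ∀ᵐ α : ℝ, 0 < α → AllInWindows K c g κ v θ α)) ∧
    (∀ (K : Type) [Field K] [NumberField K] (δ : ℝ), 0 < δ →
      (∃ C : ℝ, ∀ X : ℝ, 1 ≤ X → (Inv K X).Finite ∧
        ((Inv K X).ncard : ℝ) ≤ C * X ^ (2 / 3 + δ)) ∧
      ∃ X₀ : ℝ, ∀ X : ℝ, X₀ ≤ X → X ^ (2 / 3 - δ) ≤ ((Inv K X).ncard : ℝ)) ∧
    (∀ D : ℕ, ∃ κ : ℝ, 0 ≤ κ ∧ ∀ (K : Type) [Field K] [NumberField K],
      Module.finrank ℚ K ≤ D → ∀ j : K, j ≠ 0 → j ≠ 1728 → ∃ a b : 𝓞 K,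
        4 * (a : K) ^ 3 + 27 * (b : K) ^ 2 ≠ 0 ∧ jinv (a : K) b = j ∧
        absH (a : K) + absH (b : K) ≤ κ * (1 + absH j)) ∧
    (∀ k : ℝ, 0 < k → ExpLe (fun n : ℕ => ((n : ℝ) + 1) ^ k) (1 / k)) ∧
    (∀ b : ℝ, 1 < b → ExpLe (fun n : ℕ => b ^ n) 0) := by
  refine ⟨?_, AlmostAllInvariants.result.1, AlmostAllInvariants.result.2.2.2,
    fun κ hκ => Pool.Agent.Y854.GM.expLe_pow κ hκ, fun b hb => Pool.Agent.Y854.GM.expLe_geom b hb⟩
  intro D g κ hg hκ
  obtain ⟨c, hc, hmain⟩ := AlmostAllInvariants.result.2.2.1 D g κ hg hκ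
  refine ⟨c, hc, fun K _ _ hK => ?_⟩
  obtain ⟨ν, hν, hν1, hw⟩ := window_main K
  refine ⟨ν, hν, hν1, fun v τ θ hv hτ hE hθ => ?_⟩
  obtain ⟨E, hE1, hE2⟩ := hw v τ θ hv hτ hE hθ
  have key : ∀ α : ℝ, 0 < α → α ∉ E → AllInWindows K c g κ v θ α := by
    intro α hα hαE
    obtain ⟨n₀, hn⟩ := hE2 α hα hαE
    exact ⟨n₀, fun n hn1 a b hab hab' hj L _ _ _ _ _ =>
      hmain K hK a b hab hab' hj.1 hj.2.1 (hn n hn1 _ hj) L⟩
  refine ⟨⟨E, hE1, key⟩, fun hlt => ?_⟩
  refine Pool.Agent.X39.Win.ae_of hE1 ?_ key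
  rw [div_lt_one (by linarith)]
  linarith

end Pool.Agent.Results.MP_9a3c31_nt.InvariantsInWindows
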