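import Pool.Agent.X39.Win.Ell
import Pool.Agent.Results.MP_9a3c31_nt.AlmostAllCurvesByHeight

/-!
# Lang and Silverman's lower bound for ALL elliptic curves over `ℚ` in small boxes

Let `v ≥ 1` be a sequence with exponent of convergence at most `τ` (for `v_n = n ^ k` this is `1 / k`,
for `v_n = b ^ n` it is `0`) and `0 < c < 1 / 2`. For almost all points `(α, β)` of the plane, for all
large `n`, ALL elliptic curves `E : y² = x³ - a x - b` over `ℚ` (minimal models, arbitrary reduction) in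
the boxes `|a - α v_n ^ 2| ≤ v_n ^ θ₁`, `|b - β v_n ^ 3| ≤ v_n ^ θ₂` and all their powers `E ^ g` satisfy
the bound of Lang and Silverman with the constant `c`, for all points `P ≠ 0` over `ℚ` and all
polarizations, if `θ₁ + θ₂ + τ` is less than `min (6 / 5 - 12 c / 5, 1)`. In particular none of these
curves has a rational torsion point.
-/

set_option autoImplicit false

open MeasureTheory

namespace Pool.Agent.Results.MP_9a3c31_nt.WindowsWithoutExceptions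

open AlmostAllCurvesByHeight

/-- the exponent of convergence of the sequence `v` is at most `τ` -/
def ExpLe (v : ℕ → ℝ) (τ : ℝ) : Prop := ∀ t : ℝ, τ < t → Summable (fun n : ℕ => (v n) ^ (-t))

/-- `(a, b)` is in the box `|a - α x ^ 2| ≤ x ^ θ₁`, `|b - β x ^ 3| ≤ x ^ θ₂`, `p = (α, β)` -/
def InBox (p : ℝ × ℝ) (x θ₁ θ₂ : ℝ) (q : ℤ × ℤ) : Prop :=
  |(q.1 : ℝ) - p.1 * x ^ 2| ≤ x ^ θ₁ ∧ |(q.2 : ℝ) - p.2 * x ^ 3| ≤ x ^ θ₂

/-- **Theorem.** Let `v ≥ 1` be a sequence with exponent of convergence at most `τ`, `c > 0` and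
`τ + θ₁ + θ₂ < min (6 / 5 - 12 c / 5, 1)`. For almost all `(α, β)`, for all large `n`, ALL elliptic
curves `E` over `ℚ` in the box around `(α v_n ^ 2, β v_n ^ 3)` with sides `2 v_n ^ θ₁`, `2 v_n ^ θ₂`
satisfy the bound of Lang and Silverman `ĥ_L(P) ≥ c max (h_F(E), 1)` for all `P ≠ 0` in `E ^ g` over
`ℚ`, all `g` and all polarizations `L`, with the corresponding lower bound for the regulators; `E` has
no torsion point over `ℚ` but `0`. Every curve has a period. The sequences `v_n = (n + 1) ^ k` and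
`v_n = b ^ n` have exponent of convergence at most `1 / k` and `0`. -/
theorem result :
    (∀ (v : ℕ → ℝ) (τ θ₁ θ₂ c : ℝ), (∀ n, 1 ≤ v n) → ExpLe v τ → θ₁ ≤ 2 → θ₂ ≤ 3 → 0 < c →
      τ + θ₁ + θ₂ < min (6 / 5 - 12 / 5 * c) 1 →
      ∀ᵐ p : ℝ × ℝ, ∃ n₀ : ℕ, ∀ n : ℕ, n₀ ≤ n → ∀ q : ℤ × ℤ,
        IsMinimal q.1 q.2 → InBox p (v n) θ₁ θ₂ q →
          (∀ z : UpperHalfPlane, IsPeriod q z → LangSilverman (c * max (height q z) 1) (E q)) ∧
          ∀ P : (E q).toAffine.Point, IsOfFinAddOrder P → P = 0) ∧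
    (∀ q : ℤ × ℤ, ∃ z, IsPeriod q z) ∧
    (∀ k : ℝ, 0 < k → ExpLe (fun n : ℕ => ((n : ℝ) + 1) ^ k) (1 / k)) ∧
    (∀ b : ℝ, 1 < b → ExpLe (fun n : ℕ => b ^ n) 0) := by
  refine ⟨?_, Pool.Agent.X12.Szp.ex_Pr, fun κ hκ => Pool.Agent.Y854.GM.expLe_pow κ hκ,
    fun b hb => Pool.Agent.Y854.GM.expLe_geom b hb⟩
  intro v τ θ₁ θ₂ c hv hE h1 h2 hc hs
  have hs1 := hs.trans_le (min_le_left _ _)
  have hs2 := hs.trans_le (min_le_right _ _)
  have hT : Pool.Agent.X39.Win.Thin (Pool.Agent.X12.Lng.SL c) (max (19 / 5 + 12 / 5 * c) 4) := by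
    intro ε hε
    obtain ⟨K, -, h⟩ := Pool.Agent.X12.Lng.SL_box c ε hc hε
    exact ⟨K, h⟩
  have hsum : max (19 / 5 + 12 / 5 * c) 4 + τ + θ₁ + θ₂ < 5 := by
    rcases max_choice (19 / 5 + 12 / 5 * c) 4 with h | h <;> rw [h] <;> linarith
  filter_upwards [Pool.Agent.X39.Win.pairs _ hT hv hE h1 h2 hsum] with p hp
  obtain ⟨n₀, hn⟩ := hp
  refine ⟨n₀, fun n hn1 q hq hb => ?_⟩
  have key : ∀ z : UpperHalfPlane, IsPeriod q z →
      Pool.Agent.X12.Lng.Low (c * max (height q z) 1) q := by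
    intro z hz
    by_contra hcon
    exact hn n hn1 q ⟨hq, z, hz, hcon⟩ hb
  refine ⟨fun z hz => ls_of_low (mul_pos hc (lt_max_of_lt_right one_pos)) hq.1 (key z hz), ?_⟩
  intro P hP
  obtain ⟨z, hz⟩ := Pool.Agent.X12.Szp.ex_Pr q
  by_contra hne
  have h4 := key z hz P hne
  have hpos : 0 < c * max (height q z) 1 := mul_pos hc (lt_max_of_lt_right one_pos)
  have hDq : 4 * (-(q.1 : ℚ)) ^ 3 + 27 * (-(q.2 : ℚ)) ^ 2 ≠ 0 := by
    rw [Pool.Agent.X12.Lng.dl_neg]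
    exact_mod_cast neg_ne_zero.2 hq.1
  obtain ⟨-, -, hqp, -⟩ := Pool.Agent.TH910.LS.chat_spec hDq
  have h5 := Pool.Agent.TH910.LS.q_tors hqp hP
  linarith

end Pool.Agent.Results.MP_9a3c31_nt.WindowsWithoutExceptions
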